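import Pool.Agent.Lib.MP_c5e1a2_co.Defs

namespace Pool.Agent.Lib.MP_c5e1a2_co

open Finset

variable {S L : ℕ}

/-- The weight of a word for a weight function on ordered pairs. -/
def wt (h : Fin S → Fin S → ℤ) (w : Word S (L + 1)) : ℤ :=
  ∑ t : Fin L, h (w.1 t.castSucc) (w.1 t.succ)

theorem transCount_eq (w : Word S (L + 1)) (i j : Fin S) :
    (transCount w i j : ℤ) = ∑ t : Fin L, if w.1 t.castSucc = i ∧ w.1 t.succ = j then 1 else 0 := by
  unfold transCount
  rw [Fintype.card_subtype]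
  rw [Finset.sum_boole]
  rfl

theorem row_sum (h : Fin S → Fin S → ℤ) (w : Word S (L + 1)) :
    ∑ p : Row S, h p.1.1 p.1.2 * (transCount w p.1.1 p.1.2 : ℤ) = wt h w := by
  simp_rw [transCount_eq, Finset.mul_sum]
  rw [Finset.sum_comm]
  unfold wt
  refine Finset.sum_congr rfl fun t _ => ?_
  have hne : w.1 t.castSucc ≠ w.1 t.succ := by
    have := w.2 t (by omega)
    exact this
  rw [Finset.sum_eq_single (⟨(w.1 t.castSucc, w.1 t.succ), hne⟩ : Row S)]
  · simp
  · rintro ⟨⟨a, b⟩, hab⟩ _ hne'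
    have : ¬ (w.1 t.castSucc = a ∧ w.1 t.succ = b) := by
      rintro ⟨rfl, rfl⟩
      exact hne' rfl
    simp [this]
  · intro hh
    exact absurd (Finset.mem_univ _) hh

theorem mulVec_apply (z : Word S (L + 1) → ℤ) (p : Row S) :
    (design S (L + 1)).mulVec z p = ∑ w, z w * (transCount w p.1.1 p.1.2 : ℤ) := by
  simp [design, Matrix.mulVec, dotProduct, mul_comm]

theorem wt_sum (h : Fin S → Fin S → ℤ) (z : Word S (L + 1) → ℤ) :
    ∑ w, z w * wt h w = ∑ p : Row S, h p.1.1 p.1.2 * (design S (L + 1)).mulVec z p := by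
  simp_rw [mulVec_apply, ← row_sum, Finset.mul_sum]
  rw [Finset.sum_comm]
  refine Finset.sum_congr rfl fun p _ => Finset.sum_congr rfl fun w _ => ?_
  ring

theorem wt_one (w : Word S (L + 1)) : wt (fun _ _ => 1) w = L := by
  simp [wt]

theorem sum_of_mulVec_eq_zero (hL : 0 < L) (z : Word S (L + 1) → ℤ)
    (hz : (design S (L + 1)).mulVec z = 0) : ∑ w, z w = 0 := by
  have h := wt_sum (fun _ _ => 1) z
  simp only [wt_one, hz, Pi.zero_apply, mul_zero, Finset.sum_const_zero, ← Finset.sum_mul] at h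
  rcases mul_eq_zero.mp h with h | h
  · exact h
  · exfalso
    have : (L : ℤ) ≠ 0 := by exact_mod_cast hL.ne'
    exact this h

/-- `IsCert` : arithmetic certificate that a `{0,1}`-valued statistic `τ` of words is invariant
under moves of small degree, in the fibre of `b`. -/
def IsCert (b : Row S → ℤ) (α : Fin S → Fin S → ℤ) (τ : Word S (L + 1) → ℤ) (M : ℤ) : Prop :=
  (∀ w, 0 ≤ τ w ∧ τ w ≤ 1) ∧
  ∀ w : Word S (L + 1), (∀ p : Row S, transCount w p.1.1 p.1.2 ≠ 0 → b p ≠ 0) →
    M ∣ wt α w - τ w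

/-- key divisibility -/
theorem cert_dvd {b : Row S → ℤ} {α : Fin S → Fin S → ℤ} {τ : Word S (L + 1) → ℤ} {M : ℤ}
    (hc : IsCert b α τ M) (z : Word S (L + 1) → ℤ)
    (hz : (design S (L + 1)).mulVec z = 0)
    (hs : ∀ w, z w ≠ 0 → ∀ p : Row S, transCount w p.1.1 p.1.2 ≠ 0 → b p ≠ 0) :
    M ∣ ∑ w, z w * τ w := by
  have h1 : ∑ w, z w * wt α w = 0 := by
    rw [wt_sum, hz]; simp
  have h2 : ∑ w, z w * τ w = - ∑ w, z w * (wt α w - τ w) := by
    have : ∑ w, z w * (wt α w - τ w) = ∑ w, z w * wt α w - ∑ w, z w * τ w := by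
      rw [← Finset.sum_sub_distrib]
      exact Finset.sum_congr rfl fun w _ => by ring
    rw [this, h1]; ring
  rw [h2, dvd_neg]
  refine Finset.dvd_sum fun w _ => ?_
  by_cases hw : z w = 0
  · simp [hw]
  · exact Dvd.dvd.mul_left (hc.2 w (hs w hw)) _

/-- support of nonnegative vector is seen by its image -/
theorem supp_of_nonneg (x : Word S (L + 1) → ℤ) (hx : 0 ≤ x) (w : Word S (L + 1)) (hw : x w ≠ 0)
    (p : Row S) (hp : transCount w p.1.1 p.1.2 ≠ 0) : (design S (L + 1)).mulVec x p ≠ 0 := by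
  rw [mulVec_apply]
  apply ne_of_gt
  refine Finset.sum_pos' (fun w' _ => mul_nonneg (hx w') (by positivity)) ⟨w, mem_univ _, ?_⟩
  have h1 : 0 < x w := lt_of_le_of_ne (hx w) (Ne.symm hw)
  have h2 : 0 < transCount w p.1.1 p.1.2 := Nat.pos_of_ne_zero hp
  positivity

theorem abs_le_moveDegree (hL : 0 < L) {b : Row S → ℤ} {α : Fin S → Fin S → ℤ}
    {τ : Word S (L + 1) → ℤ} {M : ℤ}
    (hc : IsCert b α τ M) (z : Word S (L + 1) → ℤ) (hz : (design S (L + 1)).mulVec z = 0) :
    |∑ w, z w * τ w| ≤ moveDegree z := by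
  have h0 := sum_of_mulVec_eq_zero hL z hz
  have hup : ∑ w, z w * τ w ≤ moveDegree z := by
    refine Finset.sum_le_sum fun w _ => ?_
    obtain ⟨h1, h2⟩ := hc.1 w
    rcases le_total 0 (z w) with h | h
    · calc z w * τ w ≤ z w * 1 := mul_le_mul_of_nonneg_left h2 h
        _ ≤ z w ⊔ 0 := by simp
    · calc z w * τ w ≤ 0 := mul_nonpos_of_nonpos_of_nonneg h h1
        _ ≤ z w ⊔ 0 := le_max_right _ _
  have hlow : - moveDegree z ≤ ∑ w, z w * τ w := by
    have : - moveDegree z = ∑ w, (z w - (z w ⊔ 0)) := by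
      rw [Finset.sum_sub_distrib, h0]; simp [moveDegree]
    rw [this]
    refine Finset.sum_le_sum fun w _ => ?_
    obtain ⟨h1, h2⟩ := hc.1 w
    rcases le_total 0 (z w) with h | h
    · rw [max_eq_left h]
      have := mul_nonneg h h1
      linarith
    · rw [max_eq_right h]
      nlinarith
  exact abs_le.mpr ⟨hlow, hup⟩

/-- Lower bound for Markov bases from a certificate. -/
theorem markov_of_cert (hL : 0 < L) {x y : Word S (L + 1) → ℤ} (hx : 0 ≤ x) (hy : 0 ≤ y)
    (hxy : (design S (L + 1)).mulVec x = (design S (L + 1)).mulVec y)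
    {α : Fin S → Fin S → ℤ} {τ : Word S (L + 1) → ℤ} {M : ℤ}
    (hc : IsCert ((design S (L + 1)).mulVec x) α τ M)
    (hne : ∑ w, x w * τ w ≠ ∑ w, y w * τ w)
    {Z : Set (Word S (L + 1) → ℤ)} (hZ : HasMarkovProperty S (L + 1) Z) :
    ∃ z ∈ Z, M ≤ moveDegree z := by
  by_contra hcon
  push Not at hcon
  obtain ⟨K, z, hzZ, hyz, hpos⟩ := hZ.connects x y hx hy hxy
  have key : ∀ l ≤ K, (design S (L + 1)).mulVec (x + ∑ i ∈ range l, z i) =
      (design S (L + 1)).mulVec x ∧
      ∑ w, (x + ∑ i ∈ range l, z i) w * τ w = ∑ w, x w * τ w := by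
    intro l
    induction l with
    | zero => intro _; simp
    | succ l ih =>
      intro hl
      obtain ⟨ih1, ih2⟩ := ih (by omega)
      set X := x + ∑ i ∈ range l, z i with hX
      have hX' : x + ∑ i ∈ range (l + 1), z i = X + z l := by
        rw [hX, Finset.sum_range_succ, add_assoc]
      have hzl := hzZ l (by omega)
      have hmv := hZ.isMove _ hzl
      have hXpos : 0 ≤ X := hpos l (by omega)
      have hX'pos : 0 ≤ X + z l := by rw [← hX']; exact hpos (l + 1) hl
      have hmv' : (design S (L + 1)).mulVec (X + z l) = (design S (L + 1)).mulVec x := by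
        rw [Matrix.mulVec_add, hmv, add_zero, ih1]
      rw [hX']
      refine ⟨hmv', ?_⟩
      have hs : ∀ w, z l w ≠ 0 → ∀ p : Row S, transCount w p.1.1 p.1.2 ≠ 0 →
          (design S (L + 1)).mulVec x p ≠ 0 := by
        intro w hw p hp
        by_cases h : X w = 0
        · have : (X + z l) w ≠ 0 := by simpa [h] using hw
          rw [← hmv']
          exact supp_of_nonneg _ hX'pos w this p hp
        · rw [← ih1]
          exact supp_of_nonneg _ hXpos w h p hp
      have hdvd := cert_dvd hc (z l) hmv hs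
      have habs := abs_le_moveDegree hL hc (z l) hmv
      have hlt := lt_of_le_of_lt habs (hcon _ hzl)
      have hzero := Int.eq_zero_of_abs_lt_dvd hdvd hlt
      simp only [Pi.add_apply, add_mul, Finset.sum_add_distrib] at ih2 ⊢
      rw [hzero, add_zero]
      simpa [add_mul, Finset.sum_add_distrib] using ih2
  apply hne
  rw [hyz]
  exact ((key K le_rfl).2).symm

end Pool.Agent.Lib.MP_c5e1a2_co
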