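import Pool.Agent.Lib.MP_c5e1a2_co.Fibre

namespace Pool.Agent.Lib.MP_c5e1a2_co

open Finset

/-- incidence structure of the chain -/
def chainU (ℓ n g k : ℕ) : ℕ :=
  if g = 0 then 0 else if g = n + 1 then n else if k < ℓ + 1 then g - 1 else g

/-- coefficients of the chain -/
def chainA (ℓ n g : ℕ) : ℤ :=
  if g = 0 then -(-((ℓ : ℤ) + 1)) ^ n else if g = n + 1 then 1 else
    -((ℓ : ℤ) + 2) * (-((ℓ : ℤ) + 1)) ^ (n - g)

theorem chain_sum_mid (ℓ n : ℕ) (f : ℕ → ℤ) (i : ℕ) (hi : i < n) :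
    ∑ k ∈ range (ℓ + 2), f (chainU ℓ n (i + 1) k) = ((ℓ : ℤ) + 1) * f i + f (i + 1) := by
  rw [Finset.sum_range_succ]
  have h1 : ∀ k ∈ range (ℓ + 1), f (chainU ℓ n (i + 1) k) = f i := by
    intro k hk
    have hk := Finset.mem_range.mp hk
    simp only [chainU, show i + 1 ≠ 0 by omega, show i + 1 ≠ n + 1 by omega, if_false, hk,
      if_true, Nat.add_sub_cancel]
  have h2 : chainU ℓ n (i + 1) (ℓ + 1) = i + 1 := by
    simp only [chainU, show i + 1 ≠ 0 by omega, show i + 1 ≠ n + 1 by omega, if_false,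
      lt_irrefl]
  rw [Finset.sum_congr rfl h1, h2]
  simp

theorem chain_sum_last (ℓ n : ℕ) (f : ℕ → ℤ) :
    ∑ k ∈ range (ℓ + 2), f (chainU ℓ n (n + 1) k) = ((ℓ : ℤ) + 2) * f n := by
  have h1 : ∀ k ∈ range (ℓ + 2), f (chainU ℓ n (n + 1) k) = f n := by
    intro k _
    simp only [chainU, show n + 1 ≠ 0 by omega, if_false, if_true]
  rw [Finset.sum_congr rfl h1]
  simp

theorem chain_sum_first (ℓ n : ℕ) (f : ℕ → ℤ) :
    ∑ k ∈ range (ℓ + 2), f (chainU ℓ n 0 k) = ((ℓ : ℤ) + 2) * f 0 := by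
  simp [chainU]

/-- The chain data. -/
def chain (ℓ n S : ℕ) (hS : 2 * (ℓ + 2) * (n + 2) ≤ S) :
    GData ℓ (n + 1) (n + 2) S (((ℓ : ℤ) + 2) * ((ℓ : ℤ) + 1) ^ n) where
  U := chainU ℓ n
  y := fun i => -(-((ℓ : ℤ) + 1)) ^ i
  a := chainA ℓ n
  hU := by
    intro g hg k _
    unfold chainU
    split_ifs <;> omega
  hG := by omega
  hgad := by
    intro g hg0 hg
    obtain ⟨i, rfl⟩ : ∃ i, g = i + 1 := ⟨g - 1, by omega⟩
    rcases Nat.lt_or_ge i n with hi | hi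
    · rw [chain_sum_mid ℓ n (fun i => -(-((ℓ : ℤ) + 1)) ^ i) i hi]
      have : ((ℓ : ℤ) + 1) * -(-((ℓ : ℤ) + 1)) ^ i + -(-((ℓ : ℤ) + 1)) ^ (i + 1) = 0 := by
        ring
      rw [this]
      exact dvd_zero _
    · obtain rfl : i = n := by omega
      rw [chain_sum_last ℓ i (fun i => -(-((ℓ : ℤ) + 1)) ^ i)]
      refine ⟨-(-1) ^ i, ?_⟩
      rw [neg_pow ((ℓ : ℤ) + 1) i]
      ring
  hspec := by
    intro k _
    simp [chainU]
  ha := by
    intro f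
    rw [Finset.sum_range_succ, Finset.sum_range_succ', chain_sum_last, chain_sum_first]
    have h1 : ∀ i ∈ range n, chainA ℓ n (i + 1) * ∑ k ∈ range (ℓ + 2), f (chainU ℓ n (i + 1) k) =
        ((ℓ : ℤ) + 2) * ((-((ℓ : ℤ) + 1)) ^ (n - i) * f i -
          (-((ℓ : ℤ) + 1)) ^ (n - (i + 1)) * f (i + 1)) := by
      intro i hi
      have hi := Finset.mem_range.mp hi
      rw [chain_sum_mid ℓ n f i hi]
      have h2 : chainA ℓ n (i + 1) = -((ℓ : ℤ) + 2) * (-((ℓ : ℤ) + 1)) ^ (n - (i + 1)) := by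
        simp only [chainA, show i + 1 ≠ 0 by omega, show i + 1 ≠ n + 1 by omega, if_false]
      have h3 : (-((ℓ : ℤ) + 1)) ^ (n - i) =
          (-((ℓ : ℤ) + 1)) ^ (n - (i + 1)) * (-((ℓ : ℤ) + 1)) := by
        rw [← pow_succ]; congr 1; omega
      rw [h2, h3]
      ring
    rw [Finset.sum_congr rfl h1, ← Finset.mul_sum, Finset.sum_range_sub']
    have h4 : chainA ℓ n 0 = -(-((ℓ : ℤ) + 1)) ^ n := by simp [chainA]
    have h5 : chainA ℓ n (n + 1) = 1 := by simp [chainA]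
    rw [h4, h5]
    simp only [Nat.sub_zero, Nat.sub_self, pow_zero]
    ring
  ha0 := by
    simp only [chainA, if_true]
    rw [neg_ne_zero]
    apply pow_ne_zero
    have : (0 : ℤ) ≤ ℓ := Int.natCast_nonneg _
    omega
  hS := by
    have : 1 + (n + 1) + (2 * (ℓ + 2) - 1) * (n + 2) = 2 * (ℓ + 2) * (n + 2) := by
      have h1 : 2 * (ℓ + 2) = (2 * (ℓ + 2) - 1) + 1 := by omega
      conv_rhs => rw [h1]
      ring
    omega

end Pool.Agent.Lib.MP_c5e1a2_co
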