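import Mathlib

/-!
Toric homogeneous Markov chain model without self-loops and with constant initial parameters:
words, transition counts, design matrix, Markov bases, toric ideal.
-/

namespace Pool.Agent.Lib.MP_c5e1a2_co

/-- `Word S T` is the set `W_{S,T}` of words `(s_1, ..., s_T)` over the alphabet `[S]`
without self-loops: consecutive letters are different. -/
def Word (S T : ℕ) : Type :=
  {w : Fin T → Fin S // ∀ (t : ℕ) (h : t + 1 < T), w ⟨t, by omega⟩ ≠ w ⟨t + 1, h⟩}

noncomputable instance (S T : ℕ) : Fintype (Word S T) :=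
  Fintype.ofInjective (fun w : Word S T => w.1) Subtype.val_injective

noncomputable instance (S T : ℕ) : DecidableEq (Word S T) := Classical.decEq _

/-- The rows of the design matrix: ordered pairs `(i, j)` with `i ≠ j`. -/
abbrev Row (S : ℕ) : Type := {p : Fin S × Fin S // p.1 ≠ p.2}

/-- The transition count of the pair `(i, j)` in the word `w`:
the number of `t` with `s_t = i` and `s_{t+1} = j`. -/
noncomputable def transCount {S T : ℕ} (w : Word S T) (i j : Fin S) : ℕ :=
  Fintype.card {t : Fin (T - 1) // w.1 ⟨t, by omega⟩ = i ∧ w.1 ⟨t + 1, by omega⟩ = j}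

/-- The design matrix `A_{S,T}`. -/
noncomputable def design (S T : ℕ) : Matrix (Row S) (Word S T) ℤ :=
  Matrix.of fun p w => (transCount w p.1.1 p.1.2 : ℤ)

/-- The degree of the binomial `p^{z⁺} - p^{z⁻}` attached to a move `z`, i.e. the sum of the
entries of the positive part of `z`. -/
noncomputable def moveDegree {S T : ℕ} (z : Word S T → ℤ) : ℤ := ∑ w, (z w) ⊔ 0

/-- The Markov basis property for `A_{S,T}`: `Z` is a set of moves (integer vectors in the kernel)
such that any two nonnegative integer vectors `x, y` with `A x = A y` are connected by a path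
`x, x + z_1, x + z_1 + z_2, ..., y` of nonnegative vectors with all steps `z_i` in `Z`.
A Markov basis is a finite set with this property; finiteness is not required here. -/
structure HasMarkovProperty (S T : ℕ) (Z : Set (Word S T → ℤ)) : Prop where
  isMove : ∀ z ∈ Z, (design S T).mulVec z = 0
  connects : ∀ x y : Word S T → ℤ, 0 ≤ x → 0 ≤ y →
    (design S T).mulVec x = (design S T).mulVec y →
    ∃ (K : ℕ) (z : ℕ → Word S T → ℤ), (∀ i < K, z i ∈ Z) ∧
      y = x + ∑ i ∈ Finset.range K, z i ∧
      ∀ l ≤ K, 0 ≤ x + ∑ i ∈ Finset.range l, z i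

section Ideal

open MvPolynomial

variable (k : Type*) [Field k]

/-- The algebra map `p_w ↦ ∏_{i ≠ j} θ_{ij} ^ A_{(i,j),w}`. -/
noncomputable def toricMap (S T : ℕ) :
    MvPolynomial (Word S T) k →ₐ[k] MvPolynomial (Row S) k :=
  aeval fun w => ∏ p : Row S, X p ^ transCount w p.1.1 p.1.2

/-- The toric ideal `I_A`: the kernel of `toricMap`. -/
noncomputable def toricIdeal (S T : ℕ) : Ideal (MvPolynomial (Word S T) k) :=
  RingHom.ker (toricMap k S T)

end Ideal

/-- `G` is a Gröbner basis of the ideal `I` for the term order `m`: `G` is contained in `I` and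
the leading monomial of every nonzero element of `I` is divisible by the leading monomial of a
nonzero element of `G`. -/
def IsGroebnerBasis {σ : Type*} {k : Type*} [Field k] (m : MonomialOrder σ)
    (I : Ideal (MvPolynomial σ k)) (G : Set (MvPolynomial σ k)) : Prop :=
  G ⊆ I ∧ ∀ f ∈ I, f ≠ 0 → ∃ g ∈ G, g ≠ 0 ∧ m.degree g ≤ m.degree f

end Pool.Agent.Lib.MP_c5e1a2_co
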