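import Pool.Agent.Lib.MP_c5e1a2_co.Graph

namespace Pool.Agent.Lib.MP_c5e1a2_co

open Finset Vtx

/-- The data of an incidence structure between gadgets and nodes, together with the
hypotheses which make the construction work. -/
structure GData (ℓ N G S : ℕ) (M : ℤ) where
  U : ℕ → ℕ → ℕ
  y : ℕ → ℤ
  a : ℕ → ℤ
  hU : ∀ g < G, ∀ k < ℓ + 2, U g k < N
  hG : 0 < G
  hgad : ∀ g, 0 < g → g < G → M ∣ ∑ k ∈ range (ℓ + 2), y (U g k)
  hspec : ∀ k < ℓ + 2, y (U 0 k) = -1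
  ha : ∀ f : ℕ → ℤ, ∑ g ∈ range G, a g * ∑ k ∈ range (ℓ + 2), f (U g k) = 0
  ha0 : a 0 ≠ 0
  hS : 1 + N + (2 * (ℓ + 2) - 1) * G ≤ S

namespace GData

variable {ℓ N G S : ℕ} {M : ℤ} (D : GData ℓ N G S M)

include D in
theorem S_pos : 0 < S := by have := D.hS; omega

/-- arcs -/
abbrev A (x y : Vtx) : Prop := Arc (ℓ + 2) N G D.U x y

/-- letters -/
def e (x : Vtx) : Fin S := enc (ℓ + 2) N D.S_pos x

/-- vertices of letters -/
def d (_ : GData ℓ N G S M) (i : Fin S) : Vtx := dec (ℓ + 2) N i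

theorem d_e {x : Vtx} (hx : Valid (ℓ + 2) N G x) : D.d (D.e x) = x :=
  dec_enc D.S_pos D.hS hx

/-- word of a walk -/
def mkW (f : ℕ → Vtx) (hf : ∀ t < ℓ + 2, D.A (f t) (f (t + 1))) : Word S (ℓ + 2 + 1) :=
  ⟨fun t => D.e (f t), by
    intro t ht heq
    have h1 := hf t (by omega)
    have hv := h1.valid D.hU
    have h2 := congrArg D.d heq
    simp only [D.d_e hv.1, D.d_e hv.2] at h2
    exact h1.ne h2⟩

/-- walk functions -/
def fA (D : GData ℓ N G S M) (g k : ℕ) : ℕ → Vtx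
  | 0 => s
  | 1 => u (D.U g k)
  | t + 2 => v g (k + t)

/-- walk functions -/
def fB (D : GData ℓ N G S M) (g k : ℕ) : ℕ → Vtx
  | 0 => u (D.U g k)
  | t + 1 => v g (k + t)

/-- walk functions -/
def fC (_ : GData ℓ N G S M) (g : ℕ) (t : ℕ) : Vtx := v g (ℓ + t)

theorem fA_arc (g : Fin G) (k : Fin (ℓ + 2)) :
    ∀ t < ℓ + 2, D.A (D.fA g k t) (D.fA g k (t + 1)) := by
  intro t ht
  match t with
  | 0 => exact D.hU g g.2 k k.2
  | 1 => exact ⟨g.2, k.2, rfl⟩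
  | t + 2 =>
    refine ⟨rfl, by ring, g.2, ?_⟩
    have := k.2
    omega

theorem fB_arc (g : Fin G) (k : Fin (ℓ + 2)) :
    ∀ t < ℓ + 2, D.A (D.fB g k t) (D.fB g k (t + 1)) := by
  intro t ht
  match t with
  | 0 => exact ⟨g.2, k.2, rfl⟩
  | t + 1 =>
    refine ⟨rfl, by ring, g.2, ?_⟩
    have := k.2
    omega

theorem fC_arc (g : Fin G) :
    ∀ t < ℓ + 2, D.A (D.fC g t) (D.fC g (t + 1)) := by
  intro t ht
  exact ⟨rfl, by ring, g.2, by omega⟩

/-- words of type A -/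
def wA (g : Fin G) (k : Fin (ℓ + 2)) : Word S (ℓ + 2 + 1) := D.mkW (D.fA g k) (D.fA_arc g k)

/-- words of type B -/
def wB (g : Fin G) (k : Fin (ℓ + 2)) : Word S (ℓ + 2 + 1) := D.mkW (D.fB g k) (D.fB_arc g k)

/-- words of type C -/
def wC (g : Fin G) : Word S (ℓ + 2 + 1) := D.mkW (D.fC g) (D.fC_arc g)

/-- kernel vector -/
noncomputable def z : Word S (ℓ + 2 + 1) → ℤ :=
  ∑ g : Fin G, D.a g • (∑ k : Fin (ℓ + 2), (Pi.single (D.wA g k) 1 - Pi.single (D.wB g k) 1) +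
    Pi.single (D.wC g) 1)

theorem z_sum (φ : Word S (ℓ + 2 + 1) → ℤ) :
    ∑ w, D.z w * φ w = ∑ g : Fin G, D.a g * (∑ k : Fin (ℓ + 2), (φ (D.wA g k) - φ (D.wB g k)) +
      φ (D.wC g)) := by
  have hsingle : ∀ w₀ : Word S (ℓ + 2 + 1), ∑ w, (Pi.single w₀ (1 : ℤ) : _ → ℤ) w * φ w = φ w₀ := by
    intro w₀
    rw [Finset.sum_eq_single w₀]
    · simp
    · intro b _ hb; simp [Pi.single_eq_of_ne hb]
    · intro h; exact absurd (mem_univ _) h
  simp only [z, Finset.sum_apply, Pi.smul_apply, Pi.add_apply, Pi.sub_apply, smul_eq_mul,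
    Finset.sum_mul]
  rw [Finset.sum_comm]
  refine Finset.sum_congr rfl fun g _ => ?_
  have : ∀ w, D.a g * (∑ k : Fin (ℓ + 2), ((Pi.single (D.wA g k) (1 : ℤ) : _ → ℤ) w -
      (Pi.single (D.wB g k) (1 : ℤ) : _ → ℤ) w) + (Pi.single (D.wC g) (1 : ℤ) : _ → ℤ) w) * φ w =
      D.a g * (∑ k : Fin (ℓ + 2), ((Pi.single (D.wA g k) (1 : ℤ) : _ → ℤ) w * φ w -
      (Pi.single (D.wB g k) (1 : ℤ) : _ → ℤ) w * φ w) +
        (Pi.single (D.wC g) (1 : ℤ) : _ → ℤ) w * φ w) := by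
    intro w
    rw [mul_assoc, add_mul, Finset.sum_mul]
    simp only [sub_mul]
  simp_rw [this]
  rw [← Finset.mul_sum, Finset.sum_add_distrib, hsingle, Finset.sum_comm]
  congr 2
  refine Finset.sum_congr rfl fun k _ => ?_
  rw [Finset.sum_sub_distrib, hsingle, hsingle]

theorem wt_mkW (h : Fin S → Fin S → ℤ) (f : ℕ → Vtx) (hf) :
    wt h (D.mkW f hf) = ∑ t ∈ range (ℓ + 2), h (D.e (f t)) (D.e (f (t + 1))) := by
  rw [Finset.sum_range]
  rfl

theorem z_wt (h : Fin S → Fin S → ℤ) : ∑ w, D.z w * wt h w = 0 := by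
  rw [z_sum]
  have key : ∀ g : Fin G, (∑ k : Fin (ℓ + 2), (wt h (D.wA g k) - wt h (D.wB g k)) +
      wt h (D.wC g)) = ∑ k ∈ range (ℓ + 2), h (D.e s) (D.e (u (D.U g k))) := by
    intro g
    have h1 : ∀ k : Fin (ℓ + 2), wt h (D.wA g k) - wt h (D.wB g k) =
        h (D.e s) (D.e (u (D.U g k))) - h (D.e (v g (ℓ + k))) (D.e (v g (ℓ + (k + 1)))) := by
      intro k
      rw [wA, wB, wt_mkW, wt_mkW, Finset.sum_range_succ', Finset.sum_range_succ',
        Finset.sum_range_succ', Finset.sum_range_succ]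
      simp only [fA, fB]
      rw [show (k : ℕ) + ℓ = ℓ + k by ring, show (k : ℕ) + (ℓ + 1) = ℓ + (k + 1) by ring]
      have : ∑ x ∈ range ℓ, h (D.e (v g (k + x))) (D.e (v g (k + (x + 1)))) =
        ∑ x ∈ range ℓ, h (D.e (v g (k + x))) (D.e (v g (k + (x + 1)))) := rfl
      ring
    simp_rw [h1]
    rw [Finset.sum_sub_distrib]
    have h2 : wt h (D.wC g) = ∑ k : Fin (ℓ + 2),
        h (D.e (v g (ℓ + k))) (D.e (v g (ℓ + (k + 1)))) := by
      rw [wC, wt_mkW, Finset.sum_range]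
      rfl
    rw [h2, sub_add_cancel, Finset.sum_range]
  simp_rw [key]
  have := D.ha (fun i => h (D.e s) (D.e (u i)))
  rw [← this, Finset.sum_range]

theorem z_kernel : (design S (ℓ + 2 + 1)).mulVec D.z = 0 := by
  ext p
  have h := D.z_wt (fun i j => if i = p.1.1 ∧ j = p.1.2 then 1 else 0)
  rw [wt_sum, Finset.sum_eq_single p] at h
  · simpa using h
  · rintro ⟨⟨i, j⟩, hij⟩ _ hne
    have : ¬ (i = p.1.1 ∧ j = p.1.2) := by
      rintro ⟨h1, h2⟩
      apply hne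
      apply Subtype.ext
      exact Prod.ext h1 h2
    simp [this]
  · intro hh
    exact absurd (Finset.mem_univ _) hh

/-- words in the support of `z` come from walks -/
theorem z_supp (w : Word S (ℓ + 2 + 1)) (hw : D.z w ≠ 0) :
    ∃ (f : ℕ → Vtx) (hf : ∀ t < ℓ + 2, D.A (f t) (f (t + 1))), w = D.mkW f hf := by
  by_contra hcon
  apply hw
  simp only [z, Finset.sum_apply, Pi.smul_apply, Pi.add_apply, Pi.sub_apply, smul_eq_mul]
  refine Finset.sum_eq_zero fun g _ => ?_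
  have h1 : ∀ k : Fin (ℓ + 2), (Pi.single (D.wA g k) (1 : ℤ) : _ → ℤ) w = 0 := by
    intro k
    apply Pi.single_eq_of_ne
    rintro rfl
    exact hcon ⟨_, _, rfl⟩
  have h2 : ∀ k : Fin (ℓ + 2), (Pi.single (D.wB g k) (1 : ℤ) : _ → ℤ) w = 0 := by
    intro k
    apply Pi.single_eq_of_ne
    rintro rfl
    exact hcon ⟨_, _, rfl⟩
  have h3 : (Pi.single (D.wC g) (1 : ℤ) : _ → ℤ) w = 0 := by
    apply Pi.single_eq_of_ne
    rintro rfl
    exact hcon ⟨_, _, rfl⟩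
  simp [h1, h2, h3]

/-- weights on letters -/
def α (i j : Fin S) : ℤ := alpha (ℓ + 2) D.U D.y (D.d i) (D.d j)

/-- statistic on words -/
def τ (w : Word S (ℓ + 2 + 1)) : ℤ := tau (D.d (w.1 0)) (D.d (w.1 1))

theorem tau_mem (x y : Vtx) : 0 ≤ tau x y ∧ tau x y ≤ 1 := by
  cases x <;> cases y <;> simp only [tau] <;> try simp
  split_ifs <;> simp

/-- If all transitions of `w` are arcs, then the certificate identity holds. -/
theorem cert_word (w : Word S (ℓ + 2 + 1))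
    (hw : ∀ t : Fin (ℓ + 2), D.A (D.d (w.1 t.castSucc)) (D.d (w.1 t.succ))) :
    M ∣ wt D.α w - D.τ w := by
  let f : ℕ → Vtx := fun t => if h : t < ℓ + 2 + 1 then D.d (w.1 ⟨t, h⟩) else s
  have hf : ∀ t < ℓ + 2, D.A (f t) (f (t + 1)) := by
    intro t ht
    have h1 : f t = D.d (w.1 ⟨t, by omega⟩) := dif_pos (show t < ℓ + 2 + 1 by omega)
    have h2 : f (t + 1) = D.d (w.1 ⟨t + 1, by omega⟩) :=
      dif_pos (show t + 1 < ℓ + 2 + 1 by omega)
    rw [h1, h2]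
    exact hw ⟨t, ht⟩
  have h := walk_weight D.hgad D.hspec hf
  have h1 : wt D.α w = ∑ t ∈ range (ℓ + 2), alpha (ℓ + 2) D.U D.y (f t) (f (t + 1)) := by
    rw [Finset.sum_range]
    refine Finset.sum_congr rfl fun t _ => ?_
    have ht := t.2
    have h1 : f t = D.d (w.1 t.castSucc) := dif_pos (show (t : ℕ) < ℓ + 2 + 1 by omega)
    have h2 : f (t + 1) = D.d (w.1 t.succ) := dif_pos (show (t : ℕ) + 1 < ℓ + 2 + 1 by omega)
    rw [h1, h2]
    rfl
  have h2 : D.τ w = tau (f 0) (f 1) := by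
    have h1 : f 0 = D.d (w.1 0) := dif_pos (show 0 < ℓ + 2 + 1 by omega)
    have h2 : f 1 = D.d (w.1 1) := dif_pos (show 1 < ℓ + 2 + 1 by omega)
    rw [h1, h2]; rfl
  rw [h1, h2]
  exact h

theorem τ_mkW (f : ℕ → Vtx) (hf : ∀ t < ℓ + 2, D.A (f t) (f (t + 1))) :
    D.τ (D.mkW f hf) = tau (f 0) (f 1) := by
  have hv := (hf 0 (by omega)).valid D.hU
  unfold τ mkW
  simp only
  have h0 : (((0 : Fin (ℓ + 2 + 1)) : ℕ)) = 0 := rfl
  have h1 : (((1 : Fin (ℓ + 2 + 1)) : ℕ)) = 1 := rfl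
  rw [h0, h1, D.d_e hv.1]
  simp only [zero_add] at hv
  rw [D.d_e hv.2]

theorem z_tau : ∑ w, D.z w * D.τ w = - D.a 0 * (ℓ + 2) := by
  rw [z_sum]
  have hA : ∀ (g : Fin G) (k : Fin (ℓ + 2)), D.τ (D.wA g k) = 0 := by
    intro g k
    rw [wA, τ_mkW]; rfl
  have hB : ∀ (g : Fin G) (k : Fin (ℓ + 2)), D.τ (D.wB g k) = if g = ⟨0, D.hG⟩ then 1 else 0 := by
    intro g k
    rw [wB, τ_mkW]
    simp only [fB, tau, Fin.ext_iff]
  have hC : ∀ (g : Fin G), D.τ (D.wC g) = 0 := by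
    intro g
    rw [wC, τ_mkW]; rfl
  simp only [hA, hB, hC]
  rw [Finset.sum_eq_single ⟨0, D.hG⟩]
  · simp; ring
  · intro g _ hg
    simp [hg]
  · intro hh
    exact absurd (Finset.mem_univ _) hh

/-- positive part -/
noncomputable def x : Word S (ℓ + 2 + 1) → ℤ := fun w => D.z w ⊔ 0

/-- negative part -/
noncomputable def x' : Word S (ℓ + 2 + 1) → ℤ := fun w => (- D.z w) ⊔ 0

theorem x_nonneg : 0 ≤ D.x := fun _ => le_max_right _ _

theorem x'_nonneg : 0 ≤ D.x' := fun _ => le_max_right _ _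

theorem x_sub : D.z = D.x - D.x' := by
  ext w
  simp only [x, x', Pi.sub_apply]
  rcases le_total 0 (D.z w) with h | h
  · rw [max_eq_left h, max_eq_right (by omega)]; ring
  · rw [max_eq_right h, max_eq_left (by omega)]; ring

theorem mulVec_x_eq :
    (design S (ℓ + 2 + 1)).mulVec D.x = (design S (ℓ + 2 + 1)).mulVec D.x' := by
  have h := D.z_kernel
  rw [x_sub, Matrix.mulVec_sub] at h
  exact sub_eq_zero.mp h

theorem isCert : IsCert ((design S (ℓ + 2 + 1)).mulVec D.x) D.α D.τ M := by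
  refine ⟨fun w => tau_mem _ _, fun w hw => D.cert_word w fun t => ?_⟩
  have hne : w.1 t.castSucc ≠ w.1 t.succ := w.2 t (by omega)
  have h1 := hw ⟨(w.1 t.castSucc, w.1 t.succ), hne⟩ (by
    have h := transCount_eq w (w.1 t.castSucc) (w.1 t.succ)
    intro h0
    simp only at h0
    rw [h0] at h
    have h2 : (0 : ℤ) < ∑ t' : Fin (ℓ + 2),
        if w.1 t'.castSucc = w.1 t.castSucc ∧ w.1 t'.succ = w.1 t.succ then 1 else 0 := by
      refine Finset.sum_pos' (fun _ _ => by split_ifs <;> simp) ⟨t, mem_univ _, by simp⟩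
    rw [← h] at h2
    simp at h2)
  rw [mulVec_apply] at h1
  obtain ⟨w', _, hw'⟩ := Finset.exists_ne_zero_of_sum_ne_zero h1
  have hx : D.x w' ≠ 0 := left_ne_zero_of_mul hw'
  have hc : (transCount w' (w.1 t.castSucc) (w.1 t.succ) : ℤ) ≠ 0 := right_ne_zero_of_mul hw'
  have hz : D.z w' ≠ 0 := by
    intro h0
    apply hx
    simp [x, h0]
  obtain ⟨f, hf, rfl⟩ := D.z_supp w' hz
  rw [transCount_eq] at hc
  obtain ⟨t', _, ht'⟩ := Finset.exists_ne_zero_of_sum_ne_zero hc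
  have hcond : (D.mkW f hf).1 t'.castSucc = w.1 t.castSucc ∧
      (D.mkW f hf).1 t'.succ = w.1 t.succ := by
    by_contra hno
    simp [hno] at ht'
  have harc := hf t' t'.2
  have hv := harc.valid D.hU
  rw [← hcond.1, ← hcond.2]
  have e1 : D.d ((D.mkW f hf).1 t'.castSucc) = f t' := D.d_e hv.1
  have e2 : D.d ((D.mkW f hf).1 t'.succ) = f (t' + 1) := D.d_e hv.2
  rw [e1, e2]
  exact harc

theorem tau_ne : ∑ w, D.x w * D.τ w ≠ ∑ w, D.x' w * D.τ w := by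
  intro h
  have h1 := D.z_tau
  rw [x_sub] at h1
  simp only [Pi.sub_apply, sub_mul, Finset.sum_sub_distrib] at h1
  rw [h, sub_self] at h1
  have h2 : D.a 0 * ((ℓ : ℤ) + 2) = 0 := by linarith
  rcases mul_eq_zero.mp h2 with h3 | h3
  · exact D.ha0 h3
  · have : (0 : ℤ) ≤ ℓ := Int.natCast_nonneg _
    omega

end GData

/-- The existence of a fibre with a certificate. -/
theorem exists_fibre {ℓ N G S : ℕ} {M : ℤ} (D : GData ℓ N G S M) :
    ∃ (x y : Word S (ℓ + 2 + 1) → ℤ) (α : Fin S → Fin S → ℤ) (τ : Word S (ℓ + 2 + 1) → ℤ),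
      0 ≤ x ∧ 0 ≤ y ∧ (design S (ℓ + 2 + 1)).mulVec x = (design S (ℓ + 2 + 1)).mulVec y ∧
      IsCert ((design S (ℓ + 2 + 1)).mulVec x) α τ M ∧
      ∑ w, x w * τ w ≠ ∑ w, y w * τ w :=
  ⟨D.x, D.x', D.α, D.τ, D.x_nonneg, D.x'_nonneg, D.mulVec_x_eq, D.isCert, D.tau_ne⟩

end Pool.Agent.Lib.MP_c5e1a2_co
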