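import Pool.Agent.Lib.MP_c5e1a2_co.Cert

namespace Pool.Agent.Lib.MP_c5e1a2_co

open Finset

/-- The vertices of the digraph: a source `s`, nodes `u i`, and path vertices `v g j`. -/
inductive Vtx : Type
  | s : Vtx
  | u (i : ℕ) : Vtx
  | v (g j : ℕ) : Vtx
  deriving DecidableEq

namespace Vtx

/-- The arcs of the digraph with `N` nodes and `G` gadgets, each gadget being a directed path with
`2 L - 1` vertices and `L` ports; `U g k` is the node to which the port `k` of `g` is attached. -/
def Arc (L N G : ℕ) (U : ℕ → ℕ → ℕ) : Vtx → Vtx → Prop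
  | s, u i => i < N
  | u i, v g j => g < G ∧ j < L ∧ U g j = i
  | v g j, v g' j' => g' = g ∧ j' = j + 1 ∧ g < G ∧ j + 1 < 2 * L - 1
  | _, _ => False

/-- numbering of the vertices -/
def code (L N : ℕ) : Vtx → ℕ
  | s => 0
  | u i => 1 + i
  | v g j => 1 + N + (j + (2 * L - 1) * g)

/-- inverse numbering -/
def decode (L N : ℕ) (m : ℕ) : Vtx :=
  if m = 0 then s else if m < 1 + N then u (m - 1) else
    v ((m - (1 + N)) / (2 * L - 1)) ((m - (1 + N)) % (2 * L - 1))

/-- the vertices which are used -/
def Valid (L N G : ℕ) : Vtx → Prop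
  | s => True
  | u i => i < N
  | v g j => g < G ∧ j < 2 * L - 1

theorem decode_code {L N G : ℕ} {x : Vtx} (hx : Valid L N G x) : decode L N (code L N x) = x := by
  cases x with
  | s => simp [decode, code]
  | u i =>
    simp only [Valid] at hx
    simp [decode, code, hx]
  | v g j =>
    obtain ⟨h1, h2⟩ := hx
    have h3 : 1 + N + (j + (2 * L - 1) * g) ≠ 0 := by omega
    have h4 : ¬ (1 + N + (j + (2 * L - 1) * g) < 1 + N) := by omega
    have h5 : 1 + N + (j + (2 * L - 1) * g) - (1 + N) = j + (2 * L - 1) * g := by omega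
    simp only [decode, code, h3, h4, h5, if_false]
    rw [Nat.add_mul_div_left _ _ (by omega), Nat.add_mul_mod_self_left, Nat.div_eq_of_lt h2,
      Nat.mod_eq_of_lt h2, zero_add]

theorem code_lt {L N G S : ℕ} (hS : 1 + N + (2 * L - 1) * G ≤ S) {x : Vtx}
    (hx : Valid L N G x) : code L N x < S := by
  cases x with
  | s => simp only [code]; omega
  | u i => simp only [code, Valid] at *; omega
  | v g j =>
    obtain ⟨h1, h2⟩ := hx
    simp only [code]
    have : (2 * L - 1) * (g + 1) ≤ (2 * L - 1) * G := Nat.mul_le_mul_left _ h1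
    rw [Nat.mul_add] at this
    omega

/-- The letter of a vertex. -/
def enc (L N : ℕ) {S : ℕ} (hS : 0 < S) (x : Vtx) : Fin S := ⟨code L N x % S, Nat.mod_lt _ hS⟩

/-- The vertex of a letter. -/
def dec (L N : ℕ) {S : ℕ} (i : Fin S) : Vtx := decode L N i

theorem dec_enc {L N G S : ℕ} (hS0 : 0 < S) (hS : 1 + N + (2 * L - 1) * G ≤ S) {x : Vtx}
    (hx : Valid L N G x) : dec L N (enc L N hS0 x) = x := by
  simp only [dec, enc, Nat.mod_eq_of_lt (code_lt hS hx)]
  exact decode_code hx

theorem Arc.valid {L N G : ℕ} {U : ℕ → ℕ → ℕ} (hU : ∀ g < G, ∀ k < L, U g k < N) {x y : Vtx}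
    (h : Arc L N G U x y) : Valid L N G x ∧ Valid L N G y := by
  cases x with
  | s =>
    cases y with
    | s => exact h.elim
    | u i => exact ⟨trivial, h⟩
    | v g j => exact h.elim
  | u i =>
    cases y with
    | s => exact h.elim
    | u i => exact h.elim
    | v g j =>
      obtain ⟨h1, h2, h3⟩ := h
      refine ⟨?_, h1, by omega⟩
      rw [← h3]; exact hU g h1 j h2
  | v g j =>
    cases y with
    | s => exact h.elim
    | u i => exact h.elim
    | v g' j' =>
      obtain ⟨rfl, rfl, h3, h4⟩ := h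
      exact ⟨⟨h3, by omega⟩, ⟨h3, h4⟩⟩

theorem Arc.ne {L N G : ℕ} {U : ℕ → ℕ → ℕ} {x y : Vtx}
    (h : Arc L N G U x y) : x ≠ y := by
  rintro rfl
  cases x with
  | s => exact h.elim
  | u i => exact h.elim
  | v g j =>
    obtain ⟨_, h2, _⟩ := h
    omega

/-- weights of arcs -/
def alpha (L : ℕ) (U : ℕ → ℕ → ℕ) (y : ℕ → ℤ) : Vtx → Vtx → ℤ
  | s, u i => y i
  | u _, v g k => if g = 0 then 1 else y (U g ((k + 1) % L))
  | v g j, v _ _ => if g = 0 then 0 else y (U g ((j + 2) % L))
  | _, _ => 0

/-- statistic -/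
def tau : Vtx → Vtx → ℤ
  | u _, v g _ => if g = 0 then 1 else 0
  | _, _ => 0

theorem periodic_sum {L : ℕ} (c : ℕ → ℤ) (hc : ∀ m, c (m + L) = c m) (m : ℕ) :
    ∑ t ∈ range L, c (m + t) = ∑ t ∈ range L, c t := by
  induction m with
  | zero => simp
  | succ m ih =>
    rw [← ih]
    have h1 : ∑ t ∈ range (L + 1), c (m + t) = ∑ t ∈ range L, c (m + 1 + t) + c m := by
      rw [Finset.sum_range_succ']
      simp only [add_zero]
      congr 1
      exact Finset.sum_congr rfl fun t _ => by congr 1; ring
    have h2 : ∑ t ∈ range (L + 1), c (m + t) = ∑ t ∈ range L, c (m + t) + c m := by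
      rw [Finset.sum_range_succ, hc]
    linarith

/-- a walk which reaches a path vertex continues along the path -/
theorem walk_path {L N G : ℕ} {U : ℕ → ℕ → ℕ} {f : ℕ → Vtx} {K : ℕ}
    (hf : ∀ t < K, Arc L N G U (f t) (f (t + 1))) {g j t₀ : ℕ} (h0 : f t₀ = v g j) :
    ∀ t, t₀ + t ≤ K → f (t₀ + t) = v g (j + t) := by
  intro t
  induction t with
  | zero => intro _; simpa using h0
  | succ t ih =>
    intro ht
    have h1 := ih (by omega)
    have h2 := hf (t₀ + t) (by omega)
    rw [h1] at h2
    rw [show t₀ + (t + 1) = t₀ + t + 1 by ring]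
    generalize f (t₀ + t + 1) = x at h2
    cases x with
    | s => exact h2.elim
    | u i => exact h2.elim
    | v g' j' =>
      obtain ⟨rfl, rfl, _, _⟩ := h2
      rfl

theorem walk_weight {ℓ N G : ℕ} {U : ℕ → ℕ → ℕ} {y : ℕ → ℤ} {M : ℤ}
    (hgad : ∀ g, 0 < g → g < G → M ∣ ∑ k ∈ range (ℓ + 2), y (U g k))
    (hspec : ∀ k < ℓ + 2, y (U 0 k) = -1)
    {f : ℕ → Vtx} (hf : ∀ t < ℓ + 2, Arc (ℓ + 2) N G U (f t) (f (t + 1))) :
    M ∣ ∑ t ∈ range (ℓ + 2), alpha (ℓ + 2) U y (f t) (f (t + 1)) - tau (f 0) (f 1) := by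
  have hper : ∀ g, 0 < g → g < G → ∀ m, M ∣ ∑ t ∈ range (ℓ + 2), y (U g ((m + t) % (ℓ + 2))) := by
    intro g hg0 hg m
    rw [periodic_sum (L := ℓ + 2) (fun m => y (U g (m % (ℓ + 2)))) (fun m => by simp) m]
    have : ∑ t ∈ range (ℓ + 2), y (U g (t % (ℓ + 2))) = ∑ t ∈ range (ℓ + 2), y (U g t) := by
      refine Finset.sum_congr rfl fun t ht => ?_
      rw [Nat.mod_eq_of_lt (Finset.mem_range.mp ht)]
    rw [this]
    exact hgad g hg0 hg
  have harc0 := hf 0 (by omega)
  generalize hx0 : f 0 = x0 at harc0 ⊢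
  cases x0 with
  | s =>
    have harc1 := hf 1 (by omega)
    simp only [zero_add] at harc0
    generalize hx1 : f 1 = x1 at harc0 harc1 ⊢
    cases x1 with
    | s => exact harc0.elim
    | v g j => exact harc0.elim
    | u i =>
      simp only [Nat.reduceAdd] at harc1
      generalize hx2 : f 2 = x2 at harc1
      cases x2 with
      | s => exact harc1.elim
      | u i => exact harc1.elim
      | v g k =>
        obtain ⟨hg, hk, hi⟩ := harc1
        have hpath := walk_path hf hx2
        rw [Finset.sum_range_succ', Finset.sum_range_succ']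
        simp only [zero_add, hx0, hx1, Nat.reduceAdd, hx2]
        have hs : ∀ t ∈ range ℓ, alpha (ℓ + 2) U y (f (t + 1 + 1)) (f (t + 1 + 1 + 1)) =
            if g = 0 then 0 else y (U g ((k + (t + 1 + 1)) % (ℓ + 2))) := by
          intro t ht
          have ht := Finset.mem_range.mp ht
          rw [show t + 1 + 1 = 2 + t by ring, show 2 + t + 1 = 2 + (t + 1) by ring,
            hpath t (by omega), hpath (t + 1) (by omega)]
          simp only [alpha]
          rw [show k + t + 2 = k + (2 + t) by ring]
        rw [Finset.sum_congr rfl hs]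
        by_cases hg0 : g = 0
        · subst hg0
          simp only [if_true, alpha, tau, Finset.sum_const_zero, ← hi, hspec k hk]
          norm_num
        · simp only [hg0, if_false, alpha, tau, sub_zero]
          have h := hper g (Nat.pos_of_ne_zero hg0) hg k
          rw [Finset.sum_range_succ', Finset.sum_range_succ'] at h
          simp only [zero_add, add_zero, Nat.mod_eq_of_lt hk] at h
          rw [← hi]
          exact h
  | u i =>
    simp only [zero_add] at harc0
    generalize hx1 : f 1 = x1 at harc0 ⊢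
    cases x1 with
    | s => exact harc0.elim
    | u i => exact harc0.elim
    | v g k =>
      obtain ⟨hg, hk, hi⟩ := harc0
      have hpath := walk_path hf hx1
      rw [Finset.sum_range_succ']
      simp only [zero_add, hx0, hx1]
      have hs : ∀ t ∈ range (ℓ + 1), alpha (ℓ + 2) U y (f (t + 1)) (f (t + 1 + 1)) =
          if g = 0 then 0 else y (U g ((k + 1 + (t + 1)) % (ℓ + 2))) := by
        intro t ht
        have ht := Finset.mem_range.mp ht
        rw [show t + 1 = 1 + t by ring, show 1 + t + 1 = 1 + (t + 1) by ring,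
          hpath t (by omega), hpath (t + 1) (by omega)]
        simp only [alpha]
        rw [show k + t + 2 = k + 1 + (1 + t) by ring]
      rw [Finset.sum_congr rfl hs]
      by_cases hg0 : g = 0
      · subst hg0
        simp [alpha, tau]
      · simp only [hg0, if_false, alpha, tau, sub_zero]
        have h := hper g (Nat.pos_of_ne_zero hg0) hg (k + 1)
        rw [Finset.sum_range_succ'] at h
        simpa only [add_zero] using h
  | v g j =>
    have hpath := walk_path hf hx0
    simp only [zero_add] at hpath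
    have h1 : tau (v g j) (f 1) = 0 := by
      generalize f 1 = x1
      cases x1 <;> rfl
    rw [h1, sub_zero]
    have hs : ∀ t ∈ range (ℓ + 2), alpha (ℓ + 2) U y (f t) (f (t + 1)) =
        if g = 0 then 0 else y (U g ((j + 2 + t) % (ℓ + 2))) := by
      intro t ht
      have ht := Finset.mem_range.mp ht
      rw [hpath t (by omega), hpath (t + 1) (by omega)]
      simp only [alpha]
      rw [show j + t + 2 = j + 2 + t by ring]
    rw [Finset.sum_congr rfl hs]
    by_cases hg0 : g = 0
    · simp [hg0]
    · simp only [hg0, if_false]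
      have hg : g < G := by
        have := (Arc.valid (G := G) (N := N) (L := ℓ + 2) (U := U))
        -- from the first arc
        have h2 := hpath 1 (by omega)
        rw [show (0 : ℕ) + 1 = 1 by rfl, h2] at harc0
        exact harc0.2.2.1
      exact hper g (Nat.pos_of_ne_zero hg0) hg (j + 2)

end Vtx

end Pool.Agent.Lib.MP_c5e1a2_co
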