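import Pool.Agent.Lib.MP_c5e1a2_co.Chain

namespace Pool.Agent.Lib.MP_c5e1a2_co

open Finset MvPolynomial

variable {S L : ℕ}

/-- exponent vector as an integer vector -/
def vec (u : Word S (L + 1) →₀ ℕ) : Word S (L + 1) → ℤ := fun w => (u w : ℤ)

theorem vec_nonneg (u : Word S (L + 1) →₀ ℕ) : 0 ≤ vec u := fun _ => Int.natCast_nonneg _

theorem vec_add (u u' : Word S (L + 1) →₀ ℕ) : vec (u + u') = vec u + vec u' := by
  ext w; simp [vec]

/-- exponent of the image of a monomial -/
noncomputable def amap (u : Word S (L + 1) →₀ ℕ) : Row S →₀ ℕ :=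
  Finsupp.equivFunOnFinite.symm fun p => ∑ w, u w * transCount w p.1.1 p.1.2

theorem amap_eq_iff (u u' : Word S (L + 1) →₀ ℕ) :
    amap u = amap u' ↔ (design S (L + 1)).mulVec (vec u) = (design S (L + 1)).mulVec (vec u') := by
  constructor
  · intro h
    ext p
    rw [mulVec_apply, mulVec_apply]
    have h1 := DFunLike.congr_fun h p
    simp only [amap, Finsupp.equivFunOnFinite_symm_apply_apply] at h1
    simp only [vec]
    exact_mod_cast h1
  · intro h
    ext p
    have h1 := congrFun h p
    rw [mulVec_apply, mulVec_apply] at h1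
    simp only [vec] at h1
    simp only [amap, Finsupp.equivFunOnFinite_symm_apply_apply]
    exact_mod_cast h1

variable (k : Type*) [Field k]

theorem toricMap_monomial (u : Word S (L + 1) →₀ ℕ) (c : k) :
    toricMap k S (L + 1) (monomial u c) = monomial (amap u) c := by
  rw [toricMap, aeval_monomial, Finsupp.prod_fintype _ _ (by simp)]
  have h1 : ∀ w, (∏ p : Row S, (X p : MvPolynomial (Row S) k) ^ transCount w p.1.1 p.1.2) ^ u w =
      ∏ p : Row S, (X p : MvPolynomial (Row S) k) ^ (u w * transCount w p.1.1 p.1.2) := by
    intro w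
    rw [← Finset.prod_pow]
    exact Finset.prod_congr rfl fun p _ => by rw [← pow_mul, mul_comm]
  simp_rw [h1]
  rw [Finset.prod_comm]
  simp_rw [Finset.prod_pow_eq_pow_sum]
  rw [monomial_eq, Finsupp.prod_fintype _ _ (by simp)]
  simp only [amap, Finsupp.equivFunOnFinite_symm_apply_apply]
  rfl

theorem toricMap_eq (g : MvPolynomial (Word S (L + 1)) k) :
    toricMap k S (L + 1) g = ∑ u ∈ g.support, monomial (amap u) (coeff u g) := by
  conv_lhs => rw [g.as_sum]
  rw [map_sum]
  exact Finset.sum_congr rfl fun u _ => toricMap_monomial k u _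

theorem coeff_sum_zero {g : MvPolynomial (Word S (L + 1)) k} (hg : g ∈ toricIdeal k S (L + 1))
    (u₀ : Word S (L + 1) →₀ ℕ) :
    ∑ u ∈ g.support, (if amap u = amap u₀ then coeff u g else 0) = 0 := by
  have h : toricMap k S (L + 1) g = 0 := hg
  rw [toricMap_eq] at h
  have h1 := congrArg (coeff (amap u₀)) h
  rw [coeff_sum, coeff_zero] at h1
  refine Eq.trans ?_ h1
  exact Finset.sum_congr rfl fun u _ => by rw [coeff_monomial]

/-- linear functional attached to a predicate on exponent vectors -/
noncomputable def functional (P : (Word S (L + 1) →₀ ℕ) → Prop) [DecidablePred P] :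
    MvPolynomial (Word S (L + 1)) k →ₗ[k] k :=
  (basisMonomials (Word S (L + 1)) k).constr k fun u => if P u then 1 else 0

theorem functional_monomial (P : (Word S (L + 1) →₀ ℕ) → Prop) [DecidablePred P]
    (u : Word S (L + 1) →₀ ℕ) (c : k) :
    functional k P (monomial u c) = if P u then c else 0 := by
  have h : (monomial u c : MvPolynomial (Word S (L + 1)) k) =
      c • basisMonomials (Word S (L + 1)) k u := by
    rw [coe_basisMonomials, smul_monomial, smul_eq_mul, mul_one]
  rw [h, map_smul, functional, Module.Basis.constr_basis]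
  simp

theorem functional_monomial_mul (P : (Word S (L + 1) →₀ ℕ) → Prop) [DecidablePred P]
    (m : Word S (L + 1) →₀ ℕ) (c : k) (g : MvPolynomial (Word S (L + 1)) k) :
    functional k P (monomial m c * g) =
      c * ∑ u ∈ g.support, if P (m + u) then coeff u g else 0 := by
  conv_lhs => rw [g.as_sum]
  rw [Finset.mul_sum, map_sum, Finset.mul_sum]
  refine Finset.sum_congr rfl fun u _ => ?_
  rw [monomial_mul, functional_monomial]
  split_ifs <;> simp

theorem ideal_of_cert (hL : 0 < L) {x y : Word S (L + 1) → ℤ} (hx : 0 ≤ x) (hy : 0 ≤ y)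
    (hxy : (design S (L + 1)).mulVec x = (design S (L + 1)).mulVec y)
    {α : Fin S → Fin S → ℤ} {τ : Word S (L + 1) → ℤ} {M : ℕ}
    (hc : IsCert ((design S (L + 1)).mulVec x) α τ M)
    (hne : ∑ w, x w * τ w ≠ ∑ w, y w * τ w)
    {G : Set (MvPolynomial (Word S (L + 1)) k)} (hG : Ideal.span G = toricIdeal k S (L + 1)) :
    ∃ g ∈ G, M ≤ g.totalDegree := by
  classical
  by_contra hcon
  push Not at hcon
  set b := (design S (L + 1)).mulVec x with hb
  set P : (Word S (L + 1) →₀ ℕ) → Prop := fun u =>
    (design S (L + 1)).mulVec (vec u) = b ∧ ∑ w, vec u w * τ w = ∑ w, x w * τ w with hP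
  -- the functional vanishes on multiples of low degree elements
  have hkill : ∀ g ∈ toricIdeal k S (L + 1), g.totalDegree < M → ∀ h,
      functional k P (h * g) = 0 := by
    intro g hg hdeg h
    rw [h.as_sum, Finset.sum_mul, map_sum]
    refine Finset.sum_eq_zero fun m _ => ?_
    rw [functional_monomial_mul]
    by_cases hex : ∃ u₀ ∈ g.support, P (m + u₀)
    · obtain ⟨u₀, hu₀, hPu₀⟩ := hex
      have heq : ∀ u ∈ g.support, (P (m + u) ↔ amap u = amap u₀) := by
        intro u hu
        rw [amap_eq_iff]
        constructor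
        · intro hPu
          have h1 := hPu.1
          have h2 := hPu₀.1
          rw [vec_add, Matrix.mulVec_add] at h1 h2
          exact add_left_cancel (h1.trans h2.symm)
        · intro hA
          have hmv : (design S (L + 1)).mulVec (vec u - vec u₀) = 0 := by
            rw [Matrix.mulVec_sub, hA, sub_self]
          have hA1 : (design S (L + 1)).mulVec (vec (m + u)) = b := by
            rw [← hPu₀.1, vec_add, vec_add, Matrix.mulVec_add, Matrix.mulVec_add, hA]
          have hs : ∀ w, (vec u - vec u₀) w ≠ 0 → ∀ p : Row S,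
              transCount w p.1.1 p.1.2 ≠ 0 → b p ≠ 0 := by
            intro w hw p hp
            by_cases h0 : u w = 0
            · have h1 : vec (m + u₀) w ≠ 0 := by
                simp only [vec, Pi.sub_apply, h0, Nat.cast_zero, zero_sub, ne_eq,
                  neg_eq_zero, Nat.cast_eq_zero, Finsupp.add_apply] at hw ⊢
                omega
              rw [← hPu₀.1]
              exact supp_of_nonneg _ (vec_nonneg _) w h1 p hp
            · have h1 : vec (m + u) w ≠ 0 := by
                simp only [vec, Finsupp.add_apply, ne_eq, Nat.cast_eq_zero]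
                omega
              rw [← hA1]
              exact supp_of_nonneg _ (vec_nonneg _) w h1 p hp
          have hdvd := cert_dvd hc (vec u - vec u₀) hmv hs
          have habs := abs_le_moveDegree hL hc (vec u - vec u₀) hmv
          have hle : moveDegree (vec u - vec u₀) ≤ (g.totalDegree : ℤ) := by
            have h1 : moveDegree (vec u - vec u₀) ≤ ∑ w, (u w : ℤ) := by
              refine Finset.sum_le_sum fun w _ => ?_
              simp only [vec, Pi.sub_apply]
              have h2 : (0 : ℤ) ≤ u w := Int.natCast_nonneg _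
              have h3 : (0 : ℤ) ≤ u₀ w := Int.natCast_nonneg _
              exact max_le (by omega) h2
            refine h1.trans ?_
            have h2 := le_totalDegree hu
            rw [Finsupp.sum_fintype _ _ (by simp)] at h2
            exact_mod_cast h2
          have hlt : |∑ w, (vec u - vec u₀) w * τ w| < (M : ℤ) :=
            lt_of_le_of_lt (habs.trans hle) (by exact_mod_cast hdeg)
          have hzero := Int.eq_zero_of_abs_lt_dvd hdvd hlt
          refine ⟨hA1, ?_⟩
          rw [← hPu₀.2]
          simp only [vec_add, Pi.add_apply, Pi.sub_apply, add_mul, sub_mul,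
            Finset.sum_add_distrib, Finset.sum_sub_distrib] at hzero ⊢
          linarith
      have hsum : ∑ u ∈ g.support, (if P (m + u) then coeff u g else 0) =
          ∑ u ∈ g.support, (if amap u = amap u₀ then coeff u g else 0) := by
        refine Finset.sum_congr rfl fun u hu => ?_
        by_cases h : amap u = amap u₀
        · rw [if_pos h, if_pos ((heq u hu).mpr h)]
        · rw [if_neg h, if_neg (fun h' => h ((heq u hu).mp h'))]
      rw [hsum, coeff_sum_zero k hg, mul_zero]
    · push Not at hex
      rw [Finset.sum_eq_zero fun u hu => if_neg (hex u hu), mul_zero]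
  have hspan : ∀ f ∈ Ideal.span G, ∀ h, functional k P (h * f) = 0 := by
    intro f hf
    refine Submodule.span_induction ?_ ?_ ?_ ?_ hf
    · intro g hg h
      exact hkill g (hG ▸ Ideal.subset_span hg) (hcon g hg) h
    · intro h; simp
    · intro f₁ f₂ _ _ h₁ h₂ h
      rw [mul_add, map_add, h₁, h₂, add_zero]
    · intro r f _ h₁ h
      rw [smul_eq_mul, ← mul_assoc]
      exact h₁ _
  -- the binomial
  set ux : Word S (L + 1) →₀ ℕ := Finsupp.equivFunOnFinite.symm fun w => (x w).toNat with hux
  set uy : Word S (L + 1) →₀ ℕ := Finsupp.equivFunOnFinite.symm fun w => (y w).toNat with huy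
  have hvx : vec ux = x := by
    ext w
    simp only [vec, hux, Finsupp.equivFunOnFinite_symm_apply_apply]
    exact Int.toNat_of_nonneg (hx w)
  have hvy : vec uy = y := by
    ext w
    simp only [vec, huy, Finsupp.equivFunOnFinite_symm_apply_apply]
    exact Int.toNat_of_nonneg (hy w)
  have hmem : (monomial ux 1 - monomial uy 1 : MvPolynomial (Word S (L + 1)) k) ∈
      toricIdeal k S (L + 1) := by
    show toricMap k S (L + 1) (monomial ux 1 - monomial uy 1) = 0
    rw [map_sub, toricMap_monomial, toricMap_monomial,
      (amap_eq_iff ux uy).mpr (by rw [hvx, hvy, ← hb, hxy]), sub_self]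
  rw [← hG] at hmem
  have h1 := hspan _ hmem 1
  rw [one_mul, map_sub, functional_monomial, functional_monomial] at h1
  have hPx : P ux := by
    refine ⟨?_, ?_⟩
    · rw [hvx]
    · rw [hvx]
  have hPy : ¬ P uy := by
    intro h
    apply hne
    rw [← h.2, hvy]
  rw [if_pos hPx, if_neg hPy, sub_zero] at h1
  exact one_ne_zero h1

/-- A Gröbner basis generates the ideal. -/
theorem span_of_groebner {σ : Type*} {k : Type*} [Field k] (m : MonomialOrder σ)
    {I : Ideal (MvPolynomial σ k)} {G : Set (MvPolynomial σ k)} (hG : IsGroebnerBasis m I G) :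
    Ideal.span G = I := by
  apply le_antisymm
  · exact Ideal.span_le.mpr hG.1
  · intro f hf
    set B : Set (MvPolynomial σ k) := {g | g ∈ G ∧ g ≠ 0} with hB
    obtain ⟨c, r, hfr, _, hr⟩ := m.div_set (B := B) (fun b hb => by
      rw [isUnit_iff_ne_zero, Ne, MonomialOrder.leadingCoeff_eq_zero_iff]
      exact hb.2) f
    have hlin : Finsupp.linearCombination _ (fun (b : B) ↦ (b : MvPolynomial σ k)) c ∈
        Ideal.span G := by
      rw [Finsupp.linearCombination_apply]
      refine Submodule.sum_mem _ fun b _ => ?_
      exact Submodule.smul_mem _ _ (Ideal.subset_span b.2.1)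
    have hrI : r ∈ I := by
      have : r = f - Finsupp.linearCombination _ (fun (b : B) ↦ (b : MvPolynomial σ k)) c := by
        rw [hfr]; ring
      rw [this]
      exact I.sub_mem hf (Ideal.span_le.mpr hG.1 hlin)
    have hr0 : r = 0 := by
      by_contra hr0
      obtain ⟨g, hg, hg0, hle⟩ := hG.2 r hrI hr0
      exact hr _ (m.degree_mem_support hr0) g ⟨hg, hg0⟩ hle
    rw [hfr, hr0, add_zero]
    exact hlin

end Pool.Agent.Lib.MP_c5e1a2_co
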